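import Pool.Agent.H18.Halv11

set_option autoImplicit false

namespace Pool.Agent.Results.MP_7acab9_co.Middle
open Finset

theorem result : ∀ t : ℕ, ∃ K : ℕ, ∀ k v : ℕ, K ≤ k → k + K ≤ v →
    (∀ i : ℕ, i ≤ t → 2 ∣ Nat.choose (v - i) (k - i)) →
    ∃ B₁ B₂ : Finset (Finset (Fin v)),
      Disjoint B₁ B₂ ∧ B₁ ∪ B₂ = (Finset.univ : Finset (Fin v)).powersetCard k ∧
      ∃ lam : ℕ, ∀ T : Finset (Fin v), T.card = t →
        (B₁.filter (fun b => T ⊆ b)).card = lam ∧ (B₂.filter (fun b => T ⊆ b)).card = lam := by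
  intro t
  obtain ⟨K, h1, h2⟩ := H18.Halv.asym t
  refine ⟨K, fun k v hk hv he => ?_⟩
  obtain ⟨f, a, b⟩ := (h2 k v hk hv fun j hj => even_iff_two_dvd.2 (he j hj)).on
    (Finset.univ : Finset (Fin v)) (by simp)
  refine ⟨(powersetCard k univ).filter (fun B => f B = 1), (powersetCard k univ).filter (fun B => ¬ f B = 1),
    disjoint_filter_filter_not _ _ _, filter_union_filter_not_eq _ _,
    (v - t).choose (k - t) / 2, fun T hT => ?_⟩
  have h0 := b T (by omega)
  have h3 := H18.Halv.card_between (k := k) (subset_univ T) (by omega)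
  rw [card_univ, Fintype.card_fin, hT] at h3
  have e1 : ((((powersetCard k univ).filter (fun B => f B = 1)).filter (fun b => T ⊆ b)).card : ℤ)
      - (((powersetCard k univ).filter (fun B => ¬ f B = 1)).filter (fun b => T ⊆ b)).card = 0 := by
    rw [filter_filter, filter_filter, card_filter, card_filter]
    push_cast
    rw [← sum_sub_distrib]
    refine Eq.trans (sum_congr rfl fun B hB => ?_) h0
    rcases a B hB with e | e <;> by_cases h : T ⊆ B <;> simp [e, h]
  have e2 := card_filter_add_card_filter_not (s := (powersetCard k univ).filter (fun B => T ⊆ B))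
    (fun B => f B = 1)
  rw [filter_comm, filter_comm (fun B => T ⊆ B), h3] at e2
  omega

end Pool.Agent.Results.MP_7acab9_co.Middle
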